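import Mathlib

/-!
Polynomial part in several variables for box spaces of universal lattices
(MP_4c54b3_gt, helper15's Theorem E).
-/

open MvPolynomial

namespace Helper7.CE

variable (F : Type*) [Field F] (d : ℕ)

/-- Polynomials in `d` variables of degree less than `k`. -/
noncomputable def T (k : ℕ) : Submodule F (MvPolynomial (Fin d) F) :=
  restrictSupport F {s : Fin d →₀ ℕ | s.degree < k}

theorem mem_T {k : ℕ} {p : MvPolynomial (Fin d) F} :
    p ∈ T F d k ↔ ∀ s ∈ p.support, s.degree < k := by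
  rw [T, mem_restrictSupport_iff]
  constructor
  · intro h s hs
    exact h (Finset.mem_coe.2 hs)
  · intro h s hs
    exact h s (Finset.mem_coe.1 hs)

theorem T_zero : T F d 0 = ⊥ := by
  rw [eq_bot_iff]
  intro p hp
  rw [mem_T] at hp
  rw [Submodule.mem_bot, ← support_eq_empty, Finset.eq_empty_iff_forall_notMem]
  intro s hs
  exact absurd (hp s hs) (Nat.not_lt_zero _)

theorem T_mono {a b : ℕ} (h : a ≤ b) : T F d a ≤ T F d b := by
  intro p hp
  rw [mem_T] at hp ⊢
  exact fun s hs => (hp s hs).trans_le h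

theorem mem_T_succ {k : ℕ} {p : MvPolynomial (Fin d) F} :
    p ∈ T F d (k + 1) ↔ p.totalDegree ≤ k := by
  rw [mem_T, totalDegree, Finset.sup_le_iff]
  constructor
  · intro h s hs
    exact Nat.lt_succ_iff.1 (h s hs)
  · intro h s hs
    exact Nat.lt_succ_iff.2 (h s hs)

theorem mul_mem_T {a b : ℕ} {p q : MvPolynomial (Fin d) F} (hp : p ∈ T F d (a + 1))
    (hq : q ∈ T F d b) : p * q ∈ T F d (a + b) := by
  rcases b with _ | b
  · rw [T_zero, Submodule.mem_bot] at hq
    rw [hq, mul_zero]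
    exact Submodule.zero_mem _
  · rw [mem_T_succ] at hp hq
    rw [← add_assoc, mem_T_succ]
    exact (totalDegree_mul p q).trans (add_le_add hp hq)

theorem one_mem_T {k : ℕ} (hk : 1 ≤ k) : (1 : MvPolynomial (Fin d) F) ∈ T F d k := by
  obtain ⟨k, rfl⟩ := Nat.exists_eq_add_of_le' hk
  rw [mem_T_succ, totalDegree_one]
  exact Nat.zero_le _

theorem X_mem_T (i : Fin d) : (X i : MvPolynomial (Fin d) F) ∈ T F d 2 := by
  rw [mem_T_succ, totalDegree_X]

theorem exists_mem_T (p : MvPolynomial (Fin d) F) : ∃ k, p ∈ T F d k :=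
  ⟨p.totalDegree + 1, (mem_T_succ F d).2 le_rfl⟩

instance finite_index (k : ℕ) : Finite {s : Fin d →₀ ℕ | s.degree < k} :=
  (Finsupp.finite_of_degree_lt k).to_subtype

instance finiteDimensional_T (k : ℕ) : FiniteDimensional F (T F d k) :=
  Module.Finite.of_basis (basisRestrictSupport F {s : Fin d →₀ ℕ | s.degree < k})

theorem finrank_T (k : ℕ) :
    Module.finrank F (T F d k) = Nat.card {s : Fin d →₀ ℕ | s.degree < k} :=
  Module.finrank_eq_nat_card_basis (basisRestrictSupport F {s : Fin d →₀ ℕ | s.degree < k})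

theorem T1 {m : ℕ} (hm : 1 ≤ m) (l : ℕ) : Module.finrank F (T F d (m + l))
    ≤ Module.finrank F (T F d m) * Module.finrank F (T F d (l + 1)) := by
  rw [finrank_T, finrank_T, finrank_T, ← Nat.card_prod]
  have h : ∀ s : Fin d →₀ ℕ, s.degree < m + l →
      ∃ a b : Fin d →₀ ℕ, a.degree < m ∧ b.degree < l + 1 ∧ a + b = s := by
    intro s hs
    obtain ⟨a, ha, ha'⟩ := Finsupp.exists_le_degree_eq s (min s.degree (m - 1)) (min_le_left _ _)
    refine ⟨a, s - a, by omega, ?_, add_tsub_cancel_of_le ha⟩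
    have h1 : a.degree + (s - a).degree = s.degree := by
      rw [← map_add, add_tsub_cancel_of_le ha]
    omega
  choose a b h1 h2 h3 using h
  refine Nat.card_le_card_of_injective
    (fun s : {s : Fin d →₀ ℕ | s.degree < m + l} =>
      ((⟨a s.1 s.2, h1 s.1 s.2⟩ : {s : Fin d →₀ ℕ | s.degree < m}),
        (⟨b s.1 s.2, h2 s.1 s.2⟩ : {s : Fin d →₀ ℕ | s.degree < l + 1}))) ?_
  intro s s' hss
  simp only [Prod.mk.injEq, Subtype.mk.injEq] at hss
  apply Subtype.ext
  rw [← h3 s.1 s.2, ← h3 s'.1 s'.2, hss.1, hss.2]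

theorem T2 {m k : ℕ} (hmk : m ≤ 2 * k) :
    Module.finrank F (T F d m) ≤ 2 ^ d * Module.finrank F (T F d k) := by
  rw [finrank_T, finrank_T]
  have e : 2 ^ d = Nat.card (Fin d → Fin 2) := by simp
  rw [e, ← Nat.card_prod]
  refine Nat.card_le_card_of_injective
    (fun s : {s : Fin d →₀ ℕ | s.degree < m} =>
      ((fun i => (⟨s.1 i % 2, Nat.mod_lt _ (by norm_num)⟩ : Fin 2)),
        (⟨Finsupp.equivFunOnFinite.symm (fun i => s.1 i / 2), ?_⟩ :
          {s : Fin d →₀ ℕ | s.degree < k}))) ?_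
  · have hs : s.1.degree < m := s.2
    have h1 : 2 * (Finsupp.equivFunOnFinite.symm (fun i => s.1 i / 2)).degree ≤ s.1.degree := by
      rw [Finsupp.degree_eq_sum, Finsupp.degree_eq_sum, Finset.mul_sum]
      apply Finset.sum_le_sum
      intro i _
      simp only [Finsupp.equivFunOnFinite_symm_apply_apply]
      omega
    show (Finsupp.equivFunOnFinite.symm (fun i => s.1 i / 2)).degree < k
    omega
  · intro s s' hss
    simp only [Prod.mk.injEq, Subtype.mk.injEq] at hss
    apply Subtype.ext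
    ext i
    have h1 := congrFun hss.1 i
    have h2 := DFunLike.congr_fun hss.2 i
    simp only [Fin.mk.injEq] at h1
    simp only [Finsupp.equivFunOnFinite_symm_apply_apply] at h2
    omega

variable {F d} {N : ℕ}

theorem prod_mem_T (C : ℕ) (s : Finset (Fin N)) (f : Fin N → MvPolynomial (Fin d) F)
    (h : ∀ i, f i ∈ T F d (C + 1)) : ∏ i ∈ s, f i ∈ T F d (s.card * C + 1) := by
  rw [mem_T_succ]
  calc (∏ i ∈ s, f i).totalDegree ≤ ∑ i ∈ s, (f i).totalDegree := totalDegree_finsetProd s f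
    _ ≤ ∑ _i ∈ s, C := Finset.sum_le_sum fun i _ => (mem_T_succ F d).1 (h i)
    _ = s.card * C := by rw [Finset.sum_const, smul_eq_mul]

theorem det_mem_T (C : ℕ) (L : Matrix (Fin N) (Fin N) (MvPolynomial (Fin d) F))
    (hL : ∀ i j, L i j ∈ T F d (C + 1)) : L.det ∈ T F d (N * C + 1) := by
  rw [Matrix.det_apply]
  apply Submodule.sum_mem
  intro σ _
  have h1 : ∏ i, L (σ i) i ∈ T F d (N * C + 1) := by
    have := prod_mem_T C Finset.univ (fun i => L (σ i) i) (fun i => hL _ _)
    rwa [Finset.card_univ, Fintype.card_fin] at this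
  rcases Int.units_eq_one_or (Equiv.Perm.sign σ) with h | h
  · rw [h, one_smul]
    exact h1
  · rw [h]
    have e : (-1 : ℤˣ) • ∏ i, L (σ i) i = -∏ i, L (σ i) i := by
      rw [Units.neg_smul, one_smul]
    rw [e]
    exact Submodule.neg_mem _ h1

theorem T3 {I : Ideal (MvPolynomial (Fin d) F)} {M C : ℕ}
    (hI : ∀ p ∈ T F d M, p ∈ I → p = 0)
    (L : Matrix (Fin N) (Fin N) (MvPolynomial (Fin d) F))
    (hL : ∀ i j, L i j ∈ T F d (C + 1)) (hNC : N * C < M)
    (hdet : (L.map (Ideal.Quotient.mk I)).det = 1) : L.det = 1 := by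
  have h1 : L.det - 1 ∈ T F d M :=
    Submodule.sub_mem _ (T_mono F d (by omega) (det_mem_T C L hL)) (one_mem_T F d (by omega))
  have h2 : L.det - 1 ∈ I := by
    rw [← Ideal.Quotient.eq_zero_iff_mem, map_sub, map_one, RingHom.map_det]
    rw [RingHom.mapMatrix_apply, hdet, sub_self]
  exact sub_eq_zero.1 (hI _ h1 h2)

theorem T4 [Finite F] (C : ℕ) :
    {A : Matrix.SpecialLinearGroup (Fin N) (MvPolynomial (Fin d) F) |
      ∀ i j, A.1 i j ∈ T F d (C + 1)}.Finite := by
  have hfin : ((T F d (C + 1) : Submodule F _) : Set (MvPolynomial (Fin d) F)).Finite := by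
    have : Finite (T F d (C + 1)) := Module.finite_of_finite F
    exact Set.toFinite _
  have h1 : {A : Matrix (Fin N) (Fin N) (MvPolynomial (Fin d) F) |
      ∀ i j, A i j ∈ T F d (C + 1)}.Finite := by
    have h2 : {A : Fin N → Fin N → MvPolynomial (Fin d) F |
        ∀ i, A i ∈ {r : Fin N → MvPolynomial (Fin d) F | ∀ j, r j ∈ T F d (C + 1)}}.Finite := by
      apply Set.Finite.pi'
      intro i
      exact Set.Finite.pi' fun j => hfin
    exact h2
  exact Set.Finite.preimage (Subtype.val_injective.injOn) h1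

end Helper7.CE
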