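import Mathlib

/-!
Polynomial part for box spaces of SL_N(F[t]) (MP_4c54b3_gt, helper15's Theorem E).
-/

open Polynomial

namespace Helper7.CE

variable {F : Type*} [Field F] {f : F[X]}

/-- The reduced representative of a class modulo the monic polynomial `f`. -/
noncomputable def rep (hf : f.Monic) (q : AdjoinRoot f) : F[X] :=
  AdjoinRoot.modByMonicHom hf q

/-- The degree of the reduced representative. -/
noncomputable def rd (hf : f.Monic) (q : AdjoinRoot f) : WithBot ℕ := (rep hf q).degree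

theorem rep_mk (hf : f.Monic) (p : F[X]) : rep hf (AdjoinRoot.mk f p) = p %ₘ f := by
  simp [rep]

theorem mk_rep (hf : f.Monic) (q : AdjoinRoot f) : AdjoinRoot.mk f (rep hf q) = q :=
  AdjoinRoot.mk_leftInverse hf q

theorem rep_mk_of_degree_lt (hf : f.Monic) {p : F[X]} (h : p.degree < f.degree) :
    rep hf (AdjoinRoot.mk f p) = p := by
  rw [rep_mk, (modByMonic_eq_self_iff hf).2 h]

theorem rd_lt (hf : f.Monic) (q : AdjoinRoot f) : rd hf q < f.degree := by
  obtain ⟨p, rfl⟩ := AdjoinRoot.mk_surjective q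
  rw [rd, rep_mk]
  exact degree_modByMonic_lt _ hf

theorem rd_mk_le (hf : f.Monic) (p : F[X]) : rd hf (AdjoinRoot.mk f p) ≤ p.degree := by
  rw [rd, rep_mk]
  exact degree_modByMonic_le_left

theorem P1 (hf : f.Monic) (h : AdjoinRoot f) (a c : ℕ) (hac : a + c + 2 ≤ f.natDegree)
    (H : ∀ i ≤ a, rd hf (AdjoinRoot.root f ^ i * h) ≤ ((a + c : ℕ) : WithBot ℕ)) :
    rd hf h ≤ (c : WithBot ℕ) := by
  set r := rep hf h with hr
  have hmk : AdjoinRoot.mk f r = h := mk_rep hf h
  have hlt : r.degree < f.degree := rd_lt hf h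
  have hfd : f.degree = (f.natDegree : WithBot ℕ) := degree_eq_natDegree hf.ne_zero
  by_cases hr0 : r = 0
  · have : rd hf h = ⊥ := by rw [rd, ← hr, hr0, degree_zero]
    rw [this]; exact bot_le
  set d := r.natDegree with hd
  have hrd : r.degree = (d : WithBot ℕ) := degree_eq_natDegree hr0
  have hde : d < f.natDegree := by
    rw [hrd, hfd] at hlt
    exact_mod_cast hlt
  have key : ∀ i ≤ a, i + d < f.natDegree → i + d ≤ a + c := by
    intro i hi hid
    have h1 := H i hi
    have h2 : AdjoinRoot.root f ^ i * h = AdjoinRoot.mk f (X ^ i * r) := by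
      rw [map_mul, map_pow, AdjoinRoot.mk_X, hmk]
    have h3 : (X ^ i * r).degree = ((i + d : ℕ) : WithBot ℕ) := by
      rw [degree_mul, degree_X_pow, hrd]; push_cast; rfl
    rw [h2, rd, rep_mk_of_degree_lt hf (by rw [h3, hfd]; exact_mod_cast hid), h3] at h1
    exact_mod_cast h1
  have hrd' : rd hf h = (d : WithBot ℕ) := hrd
  rw [hrd']
  by_cases hc : a + d < f.natDegree
  · have := key a le_rfl hc
    have h4 : d ≤ c := by omega
    exact_mod_cast h4
  · exfalso
    have := key (f.natDegree - 1 - d) (by omega) (by omega)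
    omega

variable {N : ℕ}

theorem P2 (hf : f.Monic) (g : Matrix (Fin N) (Fin N) (AdjoinRoot f)) (a c : ℕ)
    (hac : a + c + 2 ≤ f.natDegree)
    (H : ∀ v : Fin N → AdjoinRoot f, (∀ i, rd hf (v i) ≤ (a : WithBot ℕ)) →
      ∀ i, rd hf (g.mulVec v i) ≤ ((a + c : ℕ) : WithBot ℕ)) (k j : Fin N) :
    rd hf (g k j) ≤ (c : WithBot ℕ) := by
  refine P1 hf _ a c hac fun i hi => ?_
  have h1 := H (Pi.single j (AdjoinRoot.root f ^ i)) (fun l => by
    by_cases hl : l = j
    · subst hl
      rw [Pi.single_eq_same, ← AdjoinRoot.mk_X, ← map_pow]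
      refine (rd_mk_le hf _).trans ?_
      rw [degree_X_pow]
      exact_mod_cast hi
    · rw [Pi.single_eq_of_ne hl]
      have : rd hf (0 : AdjoinRoot f) = ⊥ := by
        have := rd_mk_le hf (0 : F[X])
        rw [map_zero, degree_zero] at this
        exact le_bot_iff.1 this
      rw [this]; exact bot_le) k
  have h2 : g.mulVec (Pi.single j (AdjoinRoot.root f ^ i)) k
      = AdjoinRoot.root f ^ i * g k j := by
    rw [Matrix.mulVec_single]
    simp [Matrix.col_apply, mul_comm]
  rwa [h2] at h1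

/-- The matrix of reduced representatives. -/
noncomputable def repM (hf : f.Monic) (g : Matrix (Fin N) (Fin N) (AdjoinRoot f)) :
    Matrix (Fin N) (Fin N) F[X] := g.map (rep hf)

theorem map_repM (hf : f.Monic) (g : Matrix (Fin N) (Fin N) (AdjoinRoot f)) :
    (repM hf g).map (AdjoinRoot.mk f) = g := by
  ext i j
  simp [repM, mk_rep]

theorem natDegree_repM_le (hf : f.Monic) (g : Matrix (Fin N) (Fin N) (AdjoinRoot f)) (c : ℕ)
    (H : ∀ k j, rd hf (g k j) ≤ (c : WithBot ℕ)) (k j : Fin N) :
    (repM hf g k j).natDegree ≤ c :=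
  natDegree_le_of_degree_le (H k j)

theorem natDegree_det_le (G : Matrix (Fin N) (Fin N) F[X]) (c : ℕ)
    (H : ∀ k j, (G k j).natDegree ≤ c) : G.det.natDegree ≤ N * c := by
  rw [Matrix.det_apply]
  refine natDegree_sum_le_of_forall_le _ _ fun σ _ => ?_
  refine (natDegree_smul_le _ _).trans ?_
  refine (natDegree_prod_le _ _).trans ?_
  refine (Finset.sum_le_card_nsmul _ _ c fun i _ => H _ _).trans ?_
  simp

theorem det_repM (hf : f.Monic) (g : Matrix (Fin N) (Fin N) (AdjoinRoot f)) (hg : g.det = 1)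
    (c : ℕ) (hc : N * c < f.natDegree)
    (H : ∀ k j, rd hf (g k j) ≤ (c : WithBot ℕ)) : (repM hf g).det = 1 := by
  have h1 : AdjoinRoot.mk f ((repM hf g).det - 1) = 0 := by
    rw [map_sub, map_one, RingHom.map_det, sub_eq_zero, ← hg]
    congr 1
    exact map_repM hf g
  rw [AdjoinRoot.mk_eq_zero] at h1
  have h2 : ((repM hf g).det - 1).degree < f.degree := by
    have hfd : f.degree = (f.natDegree : WithBot ℕ) := degree_eq_natDegree hf.ne_zero
    refine lt_of_le_of_lt (degree_sub_le _ _) (max_lt ?_ ?_)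
    · refine lt_of_le_of_lt (degree_le_natDegree) ?_
      rw [hfd]
      exact_mod_cast (natDegree_det_le _ c (natDegree_repM_le hf g c H)).trans_lt hc
    · refine lt_of_le_of_lt degree_one_le ?_
      rw [hfd]
      exact_mod_cast (Nat.zero_le _).trans_lt hc
  exact sub_eq_zero.1 (eq_zero_of_dvd_of_degree_lt h1 h2)

theorem finite_natDegree_le [Finite F] (c : ℕ) : {p : F[X] | p.natDegree ≤ c}.Finite := by
  have : Finite (Fin (c + 1) → F) := inferInstance
  refine Set.Finite.subset (Set.finite_range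
    (fun v : Fin (c + 1) → F => ∑ i : Fin (c + 1), monomial (i : ℕ) (v i))) fun p hp => ?_
  refine ⟨fun i => p.coeff i, ?_⟩
  have h := as_sum_range' p (c + 1) (Nat.lt_succ_of_le hp)
  conv_rhs => rw [h]
  exact Fin.sum_univ_eq_sum_range (fun i => monomial i (p.coeff i)) (c + 1)

/-- The matrices with entries of degree at most `c` form a finite set. -/
theorem finite_matrices [Finite F] (c : ℕ) :
    {G : Matrix (Fin N) (Fin N) F[X] | ∀ k j, (G k j).natDegree ≤ c}.Finite := by
  have h : {G : Fin N → Fin N → F[X] | ∀ i, G i ∈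
      {v : Fin N → F[X] | ∀ j, v j ∈ {p : F[X] | p.natDegree ≤ c}}}.Finite :=
    Set.Finite.pi' fun _ => Set.Finite.pi' fun _ => finite_natDegree_le c
  exact h.subset fun G hG i j => hG i j

/-- Elements of `SL_N(F[X])` with entries of degree at most `c`. -/
def slBall (F : Type*) [Field F] (N c : ℕ) : Set (Matrix.SpecialLinearGroup (Fin N) F[X]) :=
  {G | ∀ k j, (G.1 k j).natDegree ≤ c}

theorem slBall_finite [Finite F] (c : ℕ) : (slBall F N c).Finite := by
  refine Set.Finite.of_finite_image (f := Subtype.val) ?_ Subtype.val_injective.injOn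
  refine (finite_matrices (F := F) (N := N) c).subset ?_
  rintro _ ⟨G, hG, rfl⟩
  exact hG

/-- If `g` increases reduced degrees by at most `c` on the vectors of reduced degree at most `a`
(and there is room), then `g` is the image of an element of `SL_N(F[X])` with entries of degree at
most `c`. -/
theorem exists_lift (hf : f.Monic) (g : Matrix.SpecialLinearGroup (Fin N) (AdjoinRoot f))
    (a c : ℕ) (hac : a + c + 2 ≤ f.natDegree) (hNc : N * c < f.natDegree)
    (H : ∀ v : Fin N → AdjoinRoot f, (∀ i, rd hf (v i) ≤ (a : WithBot ℕ)) →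
      ∀ i, rd hf (g.1.mulVec v i) ≤ ((a + c : ℕ) : WithBot ℕ)) :
    ∃ G ∈ slBall F N c, Matrix.SpecialLinearGroup.map (AdjoinRoot.mk f) G = g := by
  have hE := P2 hf g.1 a c hac H
  refine ⟨⟨repM hf g.1, det_repM hf g.1 g.2 c hNc hE⟩, natDegree_repM_le hf g.1 c hE, ?_⟩
  ext i j
  change AdjoinRoot.mk f (repM hf g.1 i j) = g.1 i j
  simp [repM, mk_rep]

end Helper7.CE
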